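import Pool.Agent.H72.BF.Targets6
import Pool.Agent.H72.BF.Basic2

/-!
Module AAR of the board bf_modules (MP_3cf473_nt), helper67.
-/

open Polynomial Finset Filter
open Pool.Agent.H72.BF

namespace Pool.Agent.H67.BF

namespace AAR

lemma ev_ge (c : ℕ) : ∀ᶠ j in (hyperfilter ℕ : Filter ℕ), c ≤ j :=
  Nat.hyperfilter_le_atTop (eventually_ge_atTop c)

lemma cst_nat {H : ℕ → ℝ} (P : Pkg H) (c : ℕ) : P.cst (c : ℂ) = (c : P.F) := by
  have h := P.evZ_const (c : ℤ)
  rw [Int.cast_natCast] at h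
  rw [← h]
  unfold Pkg.cst Pkg.evZ
  simp

/-- Lagrange interpolation bound. -/
lemma lagr (d : ℕ) : ∃ M : ℝ, 0 ≤ M ∧ ∀ p : ℂ[X], p.natDegree ≤ d → ∀ (e : ℝ),
    (∀ c ≤ d, ‖p.eval (c : ℂ)‖ ≤ e) → ∀ i, ‖p.coeff i‖ ≤ e * M := by
  classical
  set v : ℕ → ℂ := fun c => (c : ℂ) with hv
  have hvs : Set.InjOn v (Finset.range (d + 1) : Finset ℕ) := by
    intro a _ b _ hab
    simp only [hv] at hab
    exact_mod_cast hab
  set M : ℕ → ℝ := fun c => ∑ i ∈ (Lagrange.basis (Finset.range (d + 1)) v c).support,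
    ‖(Lagrange.basis (Finset.range (d + 1)) v c).coeff i‖ with hM
  have hM0 : ∀ c, 0 ≤ M c := fun c => Finset.sum_nonneg fun i _ => norm_nonneg _
  have hMi : ∀ c i, ‖(Lagrange.basis (Finset.range (d + 1)) v c).coeff i‖ ≤ M c := by
    intro c i
    by_cases hi : i ∈ (Lagrange.basis (Finset.range (d + 1)) v c).support
    · exact Finset.single_le_sum (f := fun i =>
        ‖(Lagrange.basis (Finset.range (d + 1)) v c).coeff i‖) (fun i _ => norm_nonneg _) hi
    · rw [Polynomial.notMem_support_iff] at hi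
      rw [hi, norm_zero]
      exact hM0 c
  refine ⟨∑ c ∈ Finset.range (d + 1), M c, Finset.sum_nonneg fun c _ => hM0 c, ?_⟩
  intro p hp e he i
  have hdeg : p.degree < (Finset.range (d + 1)).card := by
    rw [Finset.card_range]
    refine lt_of_le_of_lt Polynomial.degree_le_natDegree ?_
    exact_mod_cast Nat.lt_succ_of_le hp
  have hint := Lagrange.eq_interpolate hvs hdeg
  rw [Lagrange.interpolate_apply] at hint
  have hco := congrArg (fun q => q.coeff i) hint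
  simp only [Polynomial.finsetSum_coeff, Polynomial.coeff_C_mul] at hco
  rw [hco, Finset.mul_sum]
  refine (norm_sum_le _ _).trans (Finset.sum_le_sum fun c hc => ?_)
  rw [norm_mul]
  rw [Finset.mem_range] at hc
  exact mul_le_mul (he c (by omega)) (hMi c i) (norm_nonneg _)
    ((norm_nonneg _).trans (he c (by omega)))

lemma aeval_natDegree {r d : ℕ} (Q : MvPolynomial (Fin r) ℤ) (hQ : Q.totalDegree ≤ d)
    (g : Fin r → ℂ[X]) (hg : ∀ i, (g i).natDegree ≤ 1) :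
    (MvPolynomial.aeval g Q).natDegree ≤ d := by
  have h1 : MvPolynomial.aeval g Q =
      MvPolynomial.aeval g (MvPolynomial.map (algebraMap ℤ ℂ) Q) := by
    rw [MvPolynomial.aeval_map_algebraMap]
  rw [h1]
  have h2 : (MvPolynomial.map (algebraMap ℤ ℂ) Q).totalDegree ≤ d :=
    (Finset.sup_mono (MvPolynomial.support_map_subset _ _)).trans hQ
  have := MvPolynomial.aeval_natDegree_le _ h2 g hg
  simpa using this

lemma eval_aeval_snoc {K F : Type} [CommRing K] [CommRing F] [Algebra K F] {r : ℕ}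
    (Q : MvPolynomial (Fin (r + 1)) K) (t : Fin r → F) (c : F) :
    (MvPolynomial.aeval (Fin.snoc (fun i => C (t i)) X : Fin (r + 1) → F[X]) Q).eval c =
      MvPolynomial.aeval (Fin.snoc t c : Fin (r + 1) → F) Q := by
  have h : (Polynomial.aeval c : F[X] →ₐ[F] F).restrictScalars K
      (MvPolynomial.aeval (Fin.snoc (fun i => C (t i)) X : Fin (r + 1) → F[X]) Q) =
      MvPolynomial.aeval (Fin.snoc t c : Fin (r + 1) → F) Q := by
    rw [MvPolynomial.comp_aeval_apply]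
    congr 2
    funext i
    refine Fin.lastCases ?_ (fun j => ?_) i
    · simp
    · simp
  rw [← h]
  simp [Polynomial.coe_aeval_eq_eval]

lemma snoc_ev {H : ℕ → ℝ} (P : Pkg H) {r : ℕ} (ξ : ℕ → Fin r → ℂ) (z : ℂ) :
    (fun i => P.ev (fun j => (Fin.snoc (ξ j) z : Fin (r + 1) → ℂ) i)) =
      (Fin.snoc (fun i => P.ev (fun j => ξ j i)) (P.cst z) : Fin (r + 1) → P.F) := by
  funext i
  refine Fin.lastCases ?_ (fun j => ?_) i
  · simp [Pkg.cst]
  · simp

/-- a point which is bad for almost all scales satisfies a relation in the residue field -/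
lemma rel_of_ev (hEVP : T_EVP) {H : ℕ → ℝ} (P : Pkg H) {r : ℕ} (d : ℕ) (A : ℝ)
    (ξ : ℕ → Fin r → ℂ) (hξ : ∀ j i, ‖ξ j i‖ ≤ H j) (z : ℂ)
    (h : ∀ᶠ j : ℕ in (hyperfilter ℕ : Filter ℕ), badR (ξ j) d A ((j : ℝ) + 1) (H j) z) :
    RelR P.kb (fun i => P.ev (fun j => ξ j i)) d (P.cst z) := by
  classical
  have key : ∀ j, ∃ Q : MvPolynomial (Fin (r + 1)) ℤ, Q.totalDegree ≤ d ∧
      (∀ m : Fin (r + 1) →₀ ℕ, |((Q.coeff m : ℤ) : ℝ)| ≤ H j) ∧
      (badR (ξ j) d A ((j : ℝ) + 1) (H j) z →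
        H j ^ ((j : ℝ) + 1) * ‖MvPolynomial.aeval (Fin.snoc (ξ j) z : Fin (r + 1) → ℂ) Q‖ < 1 ∧
        ∃ i : ℕ, 1 ≤ H j ^ A *
        ‖(MvPolynomial.aeval (Fin.snoc (fun i => Polynomial.C (ξ j i)) Polynomial.X :
          Fin (r + 1) → ℂ[X]) Q).coeff i‖) := by
    intro j
    by_cases hb : badR (ξ j) d A ((j : ℝ) + 1) (H j) z
    · obtain ⟨Q, h1, h2, h3, h4⟩ := hb
      exact ⟨Q, h1, h2, fun _ => ⟨h3, h4⟩⟩
    · refine ⟨0, by simp, ?_, fun h => absurd h hb⟩
      intro m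
      have h2 := P.hH j
      simp
      linarith
  choose Q h1 h2 h3 using key
  have hco' : ∀ j, ∀ m : Fin (r + 1) →₀ ℕ, |(((Q j).coeff m : ℤ) : ℝ)| ≤ H j ^ 1 := by
    intro j m; rw [pow_one]; exact h2 j m
  obtain ⟨Q', hQd, hQc, hQe⟩ := hEVP H P (Fin (r + 1)) d 1 Q h1 hco'
  have hξO : ∀ i, (fun j => ξ j i) ∈ P.O := fun i =>
    P.mem_of_le 1 fun j => by rw [pow_one]; exact hξ j i
  have hxO : ∀ (y : ℂ) (i : Fin (r + 1)), (fun j => (Fin.snoc (ξ j) y : Fin (r + 1) → ℂ) i) ∈ P.O := by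
    intro y i
    refine Fin.lastCases ?_ (fun j => ?_) i
    · simpa using P.const_mem y
    · simpa using hξO j
  have hEv : ∀ y : ℂ, (fun j => MvPolynomial.aeval (Fin.snoc (ξ j) y : Fin (r + 1) → ℂ) (Q j)) ∈ P.O ∧
      MvPolynomial.aeval (Fin.snoc (fun i => P.ev (fun j => ξ j i)) (P.cst y) :
        Fin (r + 1) → P.F) Q' =
      P.ev (fun j => MvPolynomial.aeval (Fin.snoc (ξ j) y : Fin (r + 1) → ℂ) (Q j)) := by
    intro y
    have := hQe (fun j => (Fin.snoc (ξ j) y : Fin (r + 1) → ℂ)) (hxO y)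
    rw [snoc_ev] at this
    exact this
  refine ⟨MvPolynomial.map (algebraMap P.kk P.kb) Q', ?_, ?_, ?_⟩
  · exact (Finset.sup_mono (MvPolynomial.support_map_subset _ _)).trans hQd
  · rw [MvPolynomial.aeval_map_algebraMap, (hEv z).2, P.ev_eq_zero (hEv z).1]
    intro c
    filter_upwards [ev_ge c, h] with j hj hb
    have h4 := (h3 j hb).1
    have h1 := P.hH j
    have h2 : H j ^ c ≤ H j ^ ((j : ℝ) + 1) := by
      rw [← Real.rpow_natCast]
      refine Real.rpow_le_rpow_of_exponent_le (by linarith) ?_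
      have : (c : ℝ) ≤ j := by exact_mod_cast hj
      linarith
    have h3 : 0 ≤ ‖MvPolynomial.aeval (Fin.snoc (ξ j) z : Fin (r + 1) → ℂ) (Q j)‖ := norm_nonneg _
    nlinarith [mul_le_mul_of_nonneg_right h2 h3]
  · intro hz
    have hc0 : ∀ c : ℕ, P.ev (fun j => MvPolynomial.aeval (Fin.snoc (ξ j) (c : ℂ) :
        Fin (r + 1) → ℂ) (Q j)) = 0 := by
      intro c
      rw [← (hEv c).2]
      have h5 := congrArg (fun p => Polynomial.eval (P.cst (c : ℂ)) p) hz
      simp only [Polynomial.eval_zero] at h5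
      rw [eval_aeval_snoc, MvPolynomial.aeval_map_algebraMap] at h5
      exact h5
    obtain ⟨M, hM0, hM⟩ := lagr d
    obtain ⟨m, hm⟩ := pow_unbounded_of_one_lt M (by norm_num : (1 : ℝ) < 2)
    set n : ℕ := ⌈|A|⌉₊ with hn
    have hev : ∀ᶠ j in (hyperfilter ℕ : Filter ℕ), ∀ c ∈ Finset.range (d + 1),
        ‖MvPolynomial.aeval (Fin.snoc (ξ j) (c : ℂ) : Fin (r + 1) → ℂ) (Q j)‖ * H j ^ (n + m) ≤ 1 :=
      (Filter.eventually_all_finset _).2 fun c _ => (P.ev_eq_zero (hEv c).1).1 (hc0 c) (n + m)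
    obtain ⟨j, hj, hb⟩ := (hev.and h).exists
    obtain ⟨-, i, hi⟩ := h3 j hb
    have hH := P.hH j
    have hHp : 0 < H j := by linarith
    have hnm : 0 < H j ^ (n + m) := pow_pos hHp _
    set p := MvPolynomial.aeval (Fin.snoc (fun i => Polynomial.C (ξ j i)) Polynomial.X :
          Fin (r + 1) → ℂ[X]) (Q j) with hp
    have hpd : p.natDegree ≤ d := by
      refine aeval_natDegree (Q j) (h1 j) _ fun i => ?_
      refine Fin.lastCases ?_ (fun j => ?_) i
      · simp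
      · simp
    have hb2 : ∀ c ≤ d, ‖p.eval (c : ℂ)‖ ≤ (H j ^ (n + m))⁻¹ := by
      intro c hc
      rw [hp, eval_aeval_snoc]
      have := hj c (Finset.mem_range.2 (by omega))
      rw [← one_div, le_div_iff₀ hnm]
      exact this
    have h6 := hM p hpd _ hb2 i
    have h7 : H j ^ A ≤ H j ^ n := by
      rw [← Real.rpow_natCast]
      refine Real.rpow_le_rpow_of_exponent_le (by linarith) ?_
      exact (le_abs_self A).trans (Nat.le_ceil _)
    have h8 : 1 ≤ H j ^ n * ((H j ^ (n + m))⁻¹ * M) := by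
      refine hi.trans ?_
      exact mul_le_mul h7 h6 (norm_nonneg _) (pow_pos hHp _).le
    have h9 : H j ^ n * ((H j ^ (n + m))⁻¹ * M) = M / H j ^ m := by
      rw [pow_add]
      field_simp
    rw [h9, le_div_iff₀ (pow_pos hHp _), one_mul] at h8
    have h10 : (2 : ℝ) ^ m ≤ H j ^ m := pow_le_pow_left₀ (by norm_num) hH m
    linarith

end AAR

open AAR in
theorem aar (hPKG : T_PKG) (hEVP : T_EVP) (hCNTR : T_CNTR) : T_AAR := by
  classical
  intro r d δ hδ
  obtain ⟨k, ε, hε, hC⟩ := hCNTR r d δ hδ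
  refine ⟨k, ε, hε, ?_⟩
  intro X hX hcub A
  by_contra hcon
  push Not at hcon
  choose H hH2 ξ hξ hH using fun j : ℕ => hcon ((j : ℝ) + 1) (by positivity)
  obtain ⟨P⟩ := hPKG H hH2
  set S : Set ℂ := {z | z ∈ X ∧
    ∀ᶠ j : ℕ in (hyperfilter ℕ : Filter ℕ), badR (ξ j) d A ((j : ℝ) + 1) (H j) z} with hS
  have hev : ∀ᶠ j : ℕ in (hyperfilter ℕ : Filter ℕ), ∀ z ∈ X,
      (badR (ξ j) d A ((j : ℝ) + 1) (H j) z → z ∈ S) := by
    refine (Filter.eventually_all_finset X).2 fun z hz => ?_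
    by_cases hzS : ∀ᶠ j : ℕ in (hyperfilter ℕ : Filter ℕ), badR (ξ j) d A ((j : ℝ) + 1) (H j) z
    · exact Filter.Eventually.of_forall fun j _ => ⟨hz, hzS⟩
    · have := Ultrafilter.eventually_not.2 hzS
      filter_upwards [this] with j hj h using absurd h hj
  obtain ⟨j, hj⟩ := hev.exists
  have hsub1 : {z : ℂ | z ∈ X ∧ badR (ξ j) d A ((j : ℝ) + 1) (H j) z} ⊆
      {z : ℂ | z ∈ X ∧ RelR P.kb (fun i => P.ev (fun j => ξ j i)) d (P.cst z)} := by
    intro z hz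
    have hzS := hj z hz.1 hz.2
    exact ⟨hz.1, rel_of_ev hEVP P d A ξ hξ z hzS.2⟩
  have hfin2 : {z : ℂ | z ∈ X ∧ RelR P.kb (fun i => P.ev (fun j => ξ j i)) d (P.cst z)}.Finite :=
    (Finset.finite_toSet X).subset fun z hz => hz.1
  have h1 := Set.ncard_le_ncard hsub1 hfin2
  have h2 := hC X hX hcub H P (fun i => P.ev (fun j => ξ j i))
  have h3 := hH j
  have h4 : (Set.ncard {z : ℂ | z ∈ X ∧ badR (ξ j) d A ((j : ℝ) + 1) (H j) z} : ℝ) ≤
      (Set.ncard {z : ℂ | z ∈ X ∧ RelR P.kb (fun i => P.ev (fun j => ξ j i)) d (P.cst z)} : ℝ) := by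
    exact_mod_cast h1
  linarith

end Pool.Agent.H67.BF
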