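import Pool.Agent.H72.BF.Targets6
import Pool.Agent.H72.BF.Basic2

/-!
Modules CNTR and AARI of the board bf_modules (MP_3cf473_nt), helper67.
-/

open Polynomial Finset Filter
open Pool.Agent.H72.BF

namespace Pool.Agent.H67.BF

lemma cst_sum {H : ℕ → ℝ} (P : Pkg H) {k : ℕ} (w : Fin k → ℂ) (I : Finset (Fin k)) (y : ℂ) :
    P.cst (y + ∑ i ∈ I, w i) = P.cst y + ∑ i ∈ I, P.cst (w i) := by
  classical
  induction I using Finset.induction_on with
  | empty => simp
  | insert a s ha ih =>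
    rw [Finset.sum_insert ha, Finset.sum_insert ha,
      show y + (w a + ∑ i ∈ s, w i) = w a + (y + ∑ i ∈ s, w i) by ring, P.cst_add, ih]
    ring

theorem cntr (hBF : BakerFeldman) (hBFF : T_BFF) (hG : T_GCR) : T_CNTR := by
  classical
  intro r d δ hδ
  obtain ⟨κ, hκ⟩ := hG r d
  refine ⟨κ + 1, δ, hδ, ?_⟩
  intro X hX hcub H P t
  set S : Finset ℂ := X.filter (fun z => RelR P.kb t d (P.cst z)) with hS
  have e1 : {z : ℂ | z ∈ X ∧ RelR P.kb t d (P.cst z)} = (S : Set ℂ) := by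
    ext z
    simp [hS]
  rw [e1, Set.ncard_coe_finset]
  by_contra hlt
  push Not at hlt
  obtain ⟨y, w, hw, hI⟩ := hcub S (Finset.filter_subset _ _) hlt.le
  have hIX : ∀ I : Finset (Fin (κ + 1)), y + ∑ i ∈ I, w i ∈ X := fun I =>
    (Finset.mem_filter.1 (hI I)).1
  have hy : IsAlgebraic ℚ (Complex.exp y) := hX _ (by simpa using hIX ∅)
  have hwa : ∀ j, IsAlgebraic ℚ (Complex.exp (w j)) := by
    intro j
    have h1 : IsAlgebraic ℚ (Complex.exp (y + w j)) := hX _ (by simpa using hIX {j})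
    have h2 : Complex.exp (w j) = Complex.exp (y + w j) * (Complex.exp y)⁻¹ := by
      rw [Complex.exp_add]
      field_simp [Complex.exp_ne_zero]
    rw [h2]
    exact h1.mul hy.inv
  have hli := hBFF hBF (κ + 1) w hw hwa H P
  have hli' : LinearIndependent P.kb (fun j => P.cst (w j)) := by
    have := hli.comp Fin.succ (Fin.succ_injective _)
    simpa [Function.comp_def] using this
  have hcz : CharZero P.kb := by infer_instance
  have := hκ P.kb P.F t (P.cst y) (κ + 1) (fun j => P.cst (w j)) hli' (by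
    intro I
    have h3 := (Finset.mem_filter.1 (hI I)).2
    rwa [cst_sum] at h3)
  omega

theorem aari : T_AARI := by
  classical
  intro hAA hCB r d δ hδ
  obtain ⟨k, ε, hε, hk⟩ := hAA r d δ hδ
  obtain ⟨x0, hx0⟩ := hCB k ε hε
  refine ⟨x0, fun x hx A => ?_⟩
  set f : ℕ → ℂ := fun m => (Real.log m : ℂ) with hf
  have hinj : Set.InjOn f (Finset.Icc 1 x : Finset ℕ) := by
    intro a ha b hb hab
    rw [Finset.mem_coe, Finset.mem_Icc] at ha hb
    have ha' : (0 : ℝ) < a := by exact_mod_cast ha.1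
    have hb' : (0 : ℝ) < b := by exact_mod_cast hb.1
    have h1 : Real.log a = Real.log b := by
      simp only [hf] at hab
      exact_mod_cast hab
    have := Real.log_injOn_pos (Set.mem_Ioi.2 ha') (Set.mem_Ioi.2 hb') h1
    exact_mod_cast this
  set X : Finset ℂ := (Finset.Icc 1 x).image f with hX
  have hXcard : (X.card : ℝ) = x := by
    rw [hX, Finset.card_image_of_injOn hinj, Nat.card_Icc]
    simp
  have hXalg : ∀ z ∈ X, IsAlgebraic ℚ (Complex.exp z) := by
    intro z hz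
    obtain ⟨m, hm, rfl⟩ := Finset.mem_image.mp hz
    rw [Finset.mem_Icc] at hm
    have hm' : (0 : ℝ) < m := by exact_mod_cast hm.1
    have : Complex.exp (f m) = ((m : ℕ) : ℂ) := by
      simp only [hf]
      rw [← Complex.ofReal_exp, Real.exp_log hm']
      simp
    rw [this]
    exact isAlgebraic_natCast m
  obtain ⟨C, hC, hCH⟩ := hk X hXalg (hx0 x hx) A
  refine ⟨C, hC, fun H hH ξ hξ => ?_⟩
  have h1 := hCH H hH ξ hξ
  rw [hXcard] at h1
  refine le_trans ?_ h1
  have hfin : {z : ℂ | z ∈ X ∧ badR ξ d A C H z}.Finite :=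
    Set.Finite.subset (Finset.finite_toSet X) fun z hz => hz.1
  have h2 : Set.ncard {a : ℕ | 1 ≤ a ∧ a ≤ x ∧ badR ξ d A C H (Real.log a : ℂ)} ≤
      Set.ncard {z : ℂ | z ∈ X ∧ badR ξ d A C H z} := by
    refine Set.ncard_le_ncard_of_injOn f ?_ ?_ hfin
    · rintro a ⟨ha1, ha2, ha3⟩
      exact ⟨Finset.mem_image.2 ⟨a, Finset.mem_Icc.2 ⟨ha1, ha2⟩, rfl⟩, ha3⟩
    · intro a ha b hb hab
      exact hinj (Finset.mem_coe.2 (Finset.mem_Icc.2 ⟨ha.1, ha.2.1⟩))
        (Finset.mem_coe.2 (Finset.mem_Icc.2 ⟨hb.1, hb.2.1⟩)) hab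
  exact_mod_cast h2

end Pool.Agent.H67.BF
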