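import Pool.Agent.H72.BF.Targets6

/-!
Module GCR of the board bf_modules (MP_3cf473_nt), helper67: ultraproducts.
-/

open Finset Filter
open Pool.Agent.H72.BF

namespace Pool.Agent.H67.BF

namespace GCR

/-- the ideal of sequences which vanish along the ultrafilter -/
def UI (R : ℕ → Type) [∀ j, CommRing (R j)] : Ideal (∀ j, R j) where
  carrier := {f | ∀ᶠ j in (hyperfilter ℕ : Filter ℕ), f j = 0}
  add_mem' {a b} ha hb := by
    simp only [Set.mem_ofPred_eq] at *
    filter_upwards [ha, hb] with j h1 h2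
    simp [h1, h2]
  zero_mem' := Eventually.of_forall fun _ => rfl
  smul_mem' c f hf := by
    simp only [Set.mem_ofPred_eq] at *
    filter_upwards [hf] with j h
    simp [h]

lemma mem_UI {R : ℕ → Type} [∀ j, CommRing (R j)] (f : ∀ j, R j) :
    f ∈ UI R ↔ ∀ᶠ j in (hyperfilter ℕ : Filter ℕ), f j = 0 := Iff.rfl

lemma UI_max (K : ℕ → Type) [∀ j, Field (K j)] : (UI K).IsMaximal := by
  classical
  rw [Ideal.isMaximal_iff]
  constructor
  · intro h
    rw [mem_UI] at h
    obtain ⟨j, hj⟩ := h.exists
    exact one_ne_zero hj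
  · intro J x hIJ hx hxJ
    have h1 : ∀ᶠ j in (hyperfilter ℕ : Filter ℕ), x j ≠ 0 := by
      rw [mem_UI] at hx
      exact Ultrafilter.eventually_not.2 hx
    have h2 : (1 - x * (fun j => (x j)⁻¹) : ∀ j, K j) ∈ UI K := by
      rw [mem_UI]
      filter_upwards [h1] with j hj
      simp [hj]
    have h3 := J.add_mem (hIJ h2) (J.mul_mem_right (fun j => (x j)⁻¹) hxJ)
    have h4 : (1 - x * (fun j => (x j)⁻¹) + x * (fun j => (x j)⁻¹) : ∀ j, K j) = 1 := by ring
    rwa [h4] at h3

section

variable (K F : ℕ → Type) [∀ j, Field (K j)] [∀ j, Field (F j)] [∀ j, Algebra (K j) (F j)]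

/-- the ultraproduct -/
abbrev UR : Type := (∀ j, K j) ⧸ UI K

noncomputable instance fieldUR : Field (UR K) :=
  letI := UI_max K
  Ideal.Quotient.field (UI K)

/-- the class of a sequence -/
noncomputable def mk : (∀ j, K j) →+* UR K := Ideal.Quotient.mk (UI K)

lemma mk_surj : Function.Surjective (mk K) := Ideal.Quotient.mk_surjective

lemma mk_zero_iff (f : ∀ j, K j) : mk K f = 0 ↔ ∀ᶠ j in (hyperfilter ℕ : Filter ℕ), f j = 0 := by
  rw [← mem_UI]
  exact Ideal.Quotient.eq_zero_iff_mem

/-- the product of the algebra maps -/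
def pm : (∀ j, K j) →+* (∀ j, F j) :=
  Pi.ringHom fun j => (algebraMap (K j) (F j)).comp (Pi.evalRingHom K j)

lemma pm_apply (f : ∀ j, K j) (j : ℕ) : pm K F f j = algebraMap (K j) (F j) (f j) := rfl

noncomputable def um : UR K →+* UR F :=
  Ideal.Quotient.lift (UI K) ((mk F).comp (pm K F)) (by
    intro a ha
    rw [RingHom.comp_apply, mk_zero_iff]
    rw [mem_UI] at ha
    filter_upwards [ha] with j hj
    rw [pm_apply, hj, map_zero])

lemma um_mk (f : ∀ j, K j) : um K F (mk K f) = mk F (pm K F f) := rfl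

noncomputable instance algUR : Algebra (UR K) (UR F) := (um K F).toAlgebra

lemma algebraMap_UR : algebraMap (UR K) (UR F) = um K F := rfl

lemma charZero_UR [∀ j, CharZero (K j)] : CharZero (UR K) := by
  refine charZero_of_inj_zero fun n hn => ?_
  have h1 : (n : UR K) = mk K (fun _ => (n : K _)) := by
    rw [← map_natCast (mk K) n]
    rfl
  rw [h1, mk_zero_iff] at hn
  obtain ⟨j, hj⟩ := hn.exists
  exact_mod_cast hj

end

section main

variable {K F : ℕ → Type} [∀ j, Field (K j)] [∀ j, Field (F j)] [∀ j, Algebra (K j) (F j)]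

lemma fin_deg (n d : ℕ) : {m : Fin n →₀ ℕ | m.degree ≤ d}.Finite := by
  classical
  refine (Set.finite_Iic (Finsupp.equivFunOnFinite.symm (fun _ : Fin n => d))).subset ?_
  intro m hm
  rw [Set.mem_Iic, Finsupp.le_def]
  intro i
  exact (Finsupp.le_degree i m).trans hm

omit [∀ j, Field (F j)] [∀ j, Algebra (K j) (F j)] in
lemma lift_poly {n d : ℕ} (Q : ∀ j, MvPolynomial (Fin n) (K j)) (hQ : ∀ j, (Q j).totalDegree ≤ d) :
    ∃ Qt : MvPolynomial (Fin n) (∀ j, K j), Qt.totalDegree ≤ d ∧
      ∀ j, MvPolynomial.map (Pi.evalRingHom K j) Qt = Q j := by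
  classical
  refine ⟨∑ m ∈ (fin_deg n d).toFinset, MvPolynomial.monomial m (fun j => (Q j).coeff m), ?_, ?_⟩
  · refine MvPolynomial.totalDegree_finsetSum_le fun m hm => ?_
    refine (MvPolynomial.totalDegree_monomial_le _ _).trans ?_
    have := (Set.Finite.mem_toFinset _).1 hm
    exact this
  · intro j
    ext m
    rw [MvPolynomial.coeff_map, MvPolynomial.coeff_sum]
    simp only [MvPolynomial.coeff_monomial]
    rw [Finset.sum_ite_eq']
    by_cases hm : m ∈ (fin_deg n d).toFinset
    · rw [if_pos hm]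
      rfl
    · rw [if_neg hm, map_zero]
      symm
      by_contra hne
      apply hm
      rw [Set.Finite.mem_toFinset]
      have h3 := MvPolynomial.le_totalDegree (MvPolynomial.mem_support_iff.2 hne)
      exact h3.trans (hQ j)

lemma um_comp : (um K F).comp (mk K) = (mk F).comp (pm K F) := rfl

lemma eval_comp (j : ℕ) : (Pi.evalRingHom F j).comp (pm K F) =
    (algebraMap (K j) (F j)).comp (Pi.evalRingHom K j) := rfl

lemma val_star {n : ℕ} (x : Fin n → ∀ j, F j) (Qt : MvPolynomial (Fin n) (∀ j, K j)) :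
    MvPolynomial.aeval (fun i => mk F (x i)) (MvPolynomial.map (mk K) Qt) =
      mk F (MvPolynomial.eval₂ (pm K F) x Qt) := by
  rw [MvPolynomial.aeval_def, MvPolynomial.eval₂_map, algebraMap_UR, um_comp,
    MvPolynomial.hom_eval₂]

lemma val_j {n : ℕ} (x : Fin n → ∀ j, F j) (Qt : MvPolynomial (Fin n) (∀ j, K j)) (j : ℕ) :
    (MvPolynomial.eval₂ (pm K F) x Qt) j =
      MvPolynomial.aeval (fun i => x i j) (MvPolynomial.map (Pi.evalRingHom K j) Qt) := by
  rw [MvPolynomial.aeval_def, MvPolynomial.eval₂_map, ← eval_comp]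
  have := MvPolynomial.hom_eval₂ Qt (pm K F) (Pi.evalRingHom F j) x
  exact this

lemma rel_transfer {r d : ℕ} (t : ∀ j, Fin r → F j) (y : ∀ j, F j)
    (h : ∀ᶠ j in (hyperfilter ℕ : Filter ℕ), RelR (K j) (t j) d (y j)) :
    RelR (UR K) (fun i => mk F (fun j => t j i)) d (mk F y) := by
  classical
  have key : ∀ j, ∃ Q : MvPolynomial (Fin (r + 1)) (K j), Q.totalDegree ≤ d ∧
      (RelR (K j) (t j) d (y j) →
        MvPolynomial.aeval (Fin.snoc (t j) (y j) : Fin (r + 1) → F j) Q = 0 ∧
        MvPolynomial.aeval (Fin.snoc (fun i => Polynomial.C (t j i)) Polynomial.X :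
          Fin (r + 1) → Polynomial (F j)) Q ≠ 0) := by
    intro j
    by_cases hb : RelR (K j) (t j) d (y j)
    · obtain ⟨Q, h1, h2, h3⟩ := hb
      exact ⟨Q, h1, fun _ => ⟨h2, h3⟩⟩
    · exact ⟨0, by simp, fun h => absurd h hb⟩
  choose Q h1 h2 using key
  obtain ⟨Qt, hQt, hQj⟩ := lift_poly Q h1
  refine ⟨MvPolynomial.map (mk K) Qt, ?_, ?_, ?_⟩
  · exact (Finset.sup_mono (MvPolynomial.support_map_subset _ _)).trans hQt
  · have e : (Fin.snoc (fun i => mk F (fun j => t j i)) (mk F y) : Fin (r + 1) → UR F) =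
        fun i => mk F ((Fin.snoc (fun i j => t j i) y : Fin (r + 1) → ∀ j, F j) i) := by
      funext i
      refine Fin.lastCases ?_ (fun j => ?_) i
      · simp
      · simp
    rw [e, val_star, mk_zero_iff]
    filter_upwards [h] with j hj
    rw [val_j, hQj]
    have e2 : (fun i => (Fin.snoc (fun i j => t j i) y : Fin (r + 1) → ∀ j, F j) i j) =
        (Fin.snoc (t j) (y j) : Fin (r + 1) → F j) := by
      funext i
      refine Fin.lastCases ?_ (fun j => ?_) i
      · simp
      · simp
    rw [e2]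
    exact (h2 j hj).1
  · intro hz
    set pt : Polynomial (∀ j, F j) := MvPolynomial.eval₂ (Polynomial.C.comp (pm K F))
      (Fin.snoc (fun i => Polynomial.C (fun j => t j i)) Polynomial.X :
        Fin (r + 1) → Polynomial (∀ j, F j)) Qt with hpt
    have e1 : MvPolynomial.aeval (Fin.snoc (fun i => Polynomial.C (mk F (fun j => t j i)))
        Polynomial.X : Fin (r + 1) → Polynomial (UR F)) (MvPolynomial.map (mk K) Qt) =
        Polynomial.map (mk F) pt := by
      rw [hpt, ← Polynomial.coe_mapRingHom, MvPolynomial.hom_eval₂, MvPolynomial.aeval_def,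
        MvPolynomial.eval₂_map]
      congr 1
      · ext a
        simp only [RingHom.comp_apply, Polynomial.coe_mapRingHom, Polynomial.map_C]
        rfl
      · funext i
        refine Fin.lastCases ?_ (fun j => ?_) i
        · simp
        · simp
    have e2 : ∀ j, MvPolynomial.aeval (Fin.snoc (fun i => Polynomial.C (t j i)) Polynomial.X :
          Fin (r + 1) → Polynomial (F j)) (Q j) = Polynomial.map (Pi.evalRingHom F j) pt := by
      intro j
      rw [hpt, ← Polynomial.coe_mapRingHom, MvPolynomial.hom_eval₂, ← hQj j,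
        MvPolynomial.aeval_def, MvPolynomial.eval₂_map]
      congr 1
      · ext a
        simp only [RingHom.comp_apply, Polynomial.coe_mapRingHom, Polynomial.map_C]
        rfl
      · funext i
        refine Fin.lastCases ?_ (fun j => ?_) i
        · simp
        · simp
    rw [e1] at hz
    have h3 : ∀ᶠ j in (hyperfilter ℕ : Filter ℕ), ∀ b ∈ pt.support, pt.coeff b j = 0 := by
      refine (Filter.eventually_all_finset _).2 fun b _ => ?_
      rw [← mk_zero_iff]
      have := congrArg (fun p => Polynomial.coeff p b) hz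
      simpa using this
    obtain ⟨j, hj, hb⟩ := (h3.and h).exists
    apply (h2 j hb).2
    rw [e2]
    ext b
    rw [Polynomial.coeff_map, Polynomial.coeff_zero]
    by_cases hbs : b ∈ pt.support
    · exact hj b hbs
    · rw [Polynomial.notMem_support_iff] at hbs
      rw [hbs, map_zero]

end main

end GCR

open GCR in
theorem gcr (hGCL : T_GCL) (hRNB : T_RNB) : T_GCR := by
  classical
  intro r d
  by_contra hcon
  push Not at hcon
  choose K F iK cK iF aKF t y0 k w hw hI hk using hcon
  have cU : CharZero (UR K) := charZero_UR K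
  set t' : Fin r → UR F := fun i => mk F (fun j => t j i) with ht'
  obtain ⟨s, b, D, hAI, hN⟩ := hRNB (UR K) (UR F) r d t'
  obtain ⟨κ, hκ⟩ := hGCL s D
  let w' : ∀ i : ℕ, ∀ j, F j := fun i j => if h : i < k j then w j ⟨i, h⟩ else 0
  have hev : ∀ c : ℕ, ∀ᶠ j in (hyperfilter ℕ : Filter ℕ), c ≤ j := fun c =>
    Nat.hyperfilter_le_atTop (eventually_ge_atTop c)
  have hli : LinearIndependent (UR K) (fun i : Fin (κ + 1) => mk F (w' i)) := by
    rw [Fintype.linearIndependent_iff]
    intro g hg
    choose a ha using fun i => mk_surj K (g i)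
    have h1 : mk F (∑ i : Fin (κ + 1), pm K F (a i) * w' i) = 0 := by
      rw [← hg, map_sum]
      refine Finset.sum_congr rfl fun i _ => ?_
      rw [map_mul, ← um_mk, ha, Algebra.smul_def, algebraMap_UR]
    rw [mk_zero_iff] at h1
    have h2 : ∀ᶠ j in (hyperfilter ℕ : Filter ℕ), ∀ i, a i j = 0 := by
      filter_upwards [h1, hev (κ + 1)] with j hj1 hj2
      have hkj : κ + 1 ≤ k j := by have := hk j; omega
      have hlj := (hw j).comp (Fin.castLE hkj) (Fin.castLE_injective hkj)
      rw [Fintype.linearIndependent_iff] at hlj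
      refine hlj (fun i => a i j) ?_
      rw [Finset.sum_apply] at hj1
      rw [← hj1]
      refine Finset.sum_congr rfl fun i _ => ?_
      have hik : (i : ℕ) < k j := lt_of_lt_of_le i.2 hkj
      simp only [Pi.mul_apply, pm_apply, w', dif_pos hik, Algebra.smul_def, Function.comp_apply]
      rfl
    intro i
    rw [← ha i, mk_zero_iff]
    filter_upwards [h2] with j hj using hj i
  have hfin := hκ (UR K) (UR F) (t' ∘ b) hAI (mk F y0) (κ + 1) (fun i => mk F (w' i)) hli (by
    intro I
    apply hN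
    have e : mk F y0 + ∑ i ∈ I, mk F (w' i) = mk F (y0 + ∑ i ∈ I, w' i) := by
      rw [map_add, map_sum]
    rw [e]
    apply rel_transfer
    filter_upwards [hev (κ + 1)] with j hj2
    have hkj : κ + 1 ≤ k j := by have := hk j; omega
    have h3 := hI j (I.map (Fin.castLEEmb hkj))
    rw [Finset.sum_map] at h3
    convert h3 using 1
    rw [Pi.add_apply, Finset.sum_apply]
    congr 1
    refine Finset.sum_congr rfl fun i _ => ?_
    have hik : (i : ℕ) < k j := lt_of_lt_of_le i.2 hkj
    simp only [w', dif_pos hik]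
    rfl)
  omega

end Pool.Agent.H67.BF
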